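import Pool.Agent.Helper83_DPB.Stmts

/-!
# FDL: the finite dimensional lemma
-/

set_option autoImplicit false

noncomputable section

namespace Pool.Agent.Helper83_DPB.H34

theorem fdl : FdlStmt := by
  intro ι _ m K N w hm hK hw h
  classical
  set A : (Fin N → ℂ) →ₗ[ℂ] (ι → ℂ) := Fintype.linearCombination ℂ w with hA
  have hAa : ∀ a : Fin N → ℂ, A a = ∑ i, a i • w i := fun a => by
    rw [hA, Fintype.linearCombination_apply]
  let T : (Fin N → ℂ) →ₗ[ℂ] EuclideanSpace ℂ ι :=
    (WithLp.linearEquiv 2 ℂ (ι → ℂ)).symm.toLinearMap ∘ₗ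
      (LinearMap.pi fun k => ((Real.sqrt (m k) : ℝ) : ℂ) • (LinearMap.proj k ∘ₗ A))
  have hTk : ∀ a k, T a k = ((Real.sqrt (m k) : ℝ) : ℂ) * A a k := fun a k => rfl
  have hTn : ∀ a, ‖T a‖ ^ 2 = ∑ k, m k * ‖A a k‖ ^ 2 := by
    intro a
    rw [EuclideanSpace.norm_sq_eq]
    apply Finset.sum_congr rfl
    intro k _
    rw [hTk, norm_mul, mul_pow, Complex.norm_real, Real.norm_eq_abs, sq_abs, Real.sq_sqrt (hm k)]
  have hb : ∀ (a : Fin N → ℂ) (j : ι), ‖A a j‖ ^ 2 ≤ K * ‖T a‖ ^ 2 := by
    intro a j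
    rw [hTn, hAa]
    exact h a j
  have hinj : Function.Injective T := by
    rw [injective_iff_map_eq_zero]
    intro a ha
    have h1 : A a = 0 := by
      funext j
      have h2 := hb a j
      rw [ha, norm_zero] at h2
      have h3 : ‖A a j‖ ^ 2 ≤ 0 := by simpa using h2
      have h4 : ‖A a j‖ = 0 := by
        have := le_antisymm h3 (by positivity)
        exact pow_eq_zero_iff (two_ne_zero) |>.mp this
      simpa using h4
    rw [hAa] at h1
    have h5 := Fintype.linearIndependent_iff.mp hw a h1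
    funext i
    exact h5 i
  have hfin : Module.finrank ℂ (LinearMap.range T) = N := by
    rw [LinearMap.finrank_range_of_inj hinj, Module.finrank_fin_fun]
  let b := (stdOrthonormalBasis ℂ (LinearMap.range T)).reindex (finCongr hfin)
  have hex : ∀ i : Fin N, ∃ a : Fin N → ℂ, T a = ((b i : LinearMap.range T) : EuclideanSpace ℂ ι) :=
    fun i => (b i).2
  choose c hc using hex
  -- the numbers `s_j`
  let s : ι → ℝ := fun j => ∑ i, ‖A (c i) j‖ ^ 2
  have hs : ∀ j, s j ≤ K := by
    intro j
    let z : Fin N → ℂ := fun i => (starRingEnd ℂ) (A (c i) j)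
    let a : Fin N → ℂ := ∑ i, z i • c i
    have h1 : A a j = (s j : ℂ) := by
      show A (∑ i, z i • c i) j = _
      rw [map_sum, Finset.sum_apply]
      show _ = ((∑ i, ‖A (c i) j‖ ^ 2 : ℝ) : ℂ)
      push_cast
      apply Finset.sum_congr rfl
      intro i _
      rw [map_smul, Pi.smul_apply, smul_eq_mul]
      show (starRingEnd ℂ) (A (c i) j) * A (c i) j = _
      rw [mul_comm, Complex.mul_conj, Complex.normSq_eq_norm_sq]
      push_cast
      rfl
    have h2 : ‖T a‖ ^ 2 = s j := by
      have h3 : T a = ((∑ i, z i • b i : LinearMap.range T) : EuclideanSpace ℂ ι) := by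
        show T (∑ i, z i • c i) = _
        rw [map_sum, Submodule.coe_sum]
        apply Finset.sum_congr rfl
        intro i _
        rw [map_smul, hc, Submodule.coe_smul]
      have h4 : (∑ i, z i • b i : LinearMap.range T) = b.repr.symm (WithLp.toLp 2 z) := by
        rw [← b.sum_repr_symm]
      have h5 : ‖((∑ i, z i • b i : LinearMap.range T) : EuclideanSpace ℂ ι)‖ =
          ‖(∑ i, z i • b i : LinearMap.range T)‖ := rfl
      rw [h3, h5, h4, LinearIsometryEquiv.norm_map, EuclideanSpace.norm_sq_eq]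
      apply Finset.sum_congr rfl
      intro i _
      show ‖(starRingEnd ℂ) (A (c i) j)‖ ^ 2 = _
      rw [RCLike.norm_conj]
    have h5 := hb a j
    rw [h1, h2, Complex.norm_real, Real.norm_eq_abs, sq_abs] at h5
    have h6 : 0 ≤ s j := Finset.sum_nonneg fun i _ => by positivity
    rcases h6.eq_or_lt with h7 | h7
    · rw [← h7]; exact hK
    · nlinarith
  have hN : (N : ℝ) = ∑ k, m k * s k := by
    have h1 : (N : ℝ) = ∑ i : Fin N, ‖((b i : LinearMap.range T) : EuclideanSpace ℂ ι)‖ ^ 2 := by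
      have : ∀ i : Fin N, ‖((b i : LinearMap.range T) : EuclideanSpace ℂ ι)‖ = 1 := by
        intro i
        have := b.orthonormal.1 i
        exact this
      simp [this]
    rw [h1]
    have h2 : ∀ i : Fin N, ‖((b i : LinearMap.range T) : EuclideanSpace ℂ ι)‖ ^ 2 =
        ∑ k, m k * ‖A (c i) k‖ ^ 2 := by
      intro i
      rw [← hc, hTn]
    simp only [h2]
    rw [Finset.sum_comm]
    apply Finset.sum_congr rfl
    intro k _
    rw [← Finset.mul_sum]
  rw [hN, Finset.mul_sum]
  apply Finset.sum_le_sum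
  intro k _
  rw [mul_comm K]
  exact mul_le_mul_of_nonneg_left (hs k) (hm k)

end Pool.Agent.Helper83_DPB.H34
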